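import Pool.Agent.Q138.SA.NotK2

/-!
# MP_c30652_gt, Q1: the simple `k`-Anosov domain is not maximal for `d ≥ 4`

For every closed hyperbolic surface `S = ℍ / Γ` and every `d ≥ 4` there is one domain of
discontinuity for the action of `Mod(S) = Out(Γ)` on the character variety `χ(Γ, SL(d, ℂ))` which
strictly contains the simple `k`-Anosov domain for every `1 ≤ k ≤ d - 1`.
-/

set_option autoImplicit false

open scoped MatrixGroups

namespace Pool.Agent.Results.MP_c30652_gt.NotMaximal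

open Pool.Agent.Y473.SA Pool.Agent.Q138.SA

/-- The simple `k`-Anosov domain is not a maximal domain of discontinuity, for every closed
surface, every `d ≥ 4` and every `1 ≤ k ≤ d - 1`. -/
theorem result (Γ : Subgroup SL(2, ℝ)) (hΓ : IsClosedSurface Γ) (d : ℕ) (hd : 4 ≤ d) :
    ∃ U : Set (CharVar Γ d), IsDomainOfDiscontinuity U ∧
      ∀ k : ℕ, 1 ≤ k → k < d → simpleAnosovDomain Γ d k ⊂ U := by
  refine ⟨dispDomain Γ d, isDomain hΓ, fun k hk hkd => ?_⟩
  refine ⟨simpleAnosovDomain_subset hΓ hk hkd, fun hsub => ?_⟩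
  obtain ⟨m, n, hmn, hm, hkm, hkmn⟩ : ∃ m n : ℕ, d = 2 * m + n ∧ 1 ≤ m ∧ k ≠ m ∧ k ≠ m + n := by
    by_cases h : k = 1 ∨ k = d - 1
    · exact ⟨2, d - 4, by omega, by omega, by omega, by omega⟩
    · push Not at h
      exact ⟨1, d - 2, by omega, by omega, by omega, by omega⟩
  subst hmn
  apply exRep_not_mem hΓ hk hkd hkm hkmn
  apply hsub
  apply simpleAnosovDomain_subset hΓ hm (by omega)
  exact ⟨⟨exRep Γ m n, exRep_cr hΓ m n⟩, exRep_anosov Γ m n, rfl⟩

end Pool.Agent.Results.MP_c30652_gt.NotMaximal
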